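import Mathlib
import Pool.Agent.H45.SQ.Targets2

/-!
# Squares: a general lemma on planar statistics

A product of separated kernels along the edges of a finite graph, averaged over a common
translation of the rows, is planar.
-/

namespace Pool.Agent.H16.SQ

open Finset
open scoped BigOperators ComplexConjugate
open Pool.Agent.H45.SQ

theorem norm_prod_le_one' {ι : Type*} (s : Finset ι) (f : ι → ℂ) (h : ∀ i ∈ s, ‖f i‖ ≤ 1) :
    ‖∏ i ∈ s, f i‖ ≤ 1 := by
  rw [norm_prod]
  exact Finset.prod_le_one (fun i _ => norm_nonneg _) h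

/-- The general lemma. -/
theorem planar_general {G : Type} [AddCommGroup G] [Fintype G] {ι : Type} [Fintype ι] [DecidableEq ι]
    {E : Type} [Fintype E] [DecidableEq E] {O : Type} [Fintype O] [Nonempty O]
    (L : E → Fam G) (C : E → ℝ) (hL : ∀ e, Sep (C e) (L e))
    (src tgt : E → ι) (q σ τ : E → O → G) (g : (ι → G) → ℂ)
    (hg : ∀ r, g r = 𝔼 o : O, 𝔼 y : G, ∏ e, L e (q e o) (r (src e) + y + σ e o) (r (tgt e) + y + τ e o)) :
    Planar (∏ e, C e) g := by
  classical
  choose Ω hΩ c a b ha hb hc hLe using hL
  refine ⟨O × (∀ e, Ω e), inferInstance, fun w => ((Fintype.card O : ℂ))⁻¹ * ∏ e, c e (w.2 e),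
    fun w ρ x => ∏ e, ((if src e = ρ then a e (w.2 e) (q e w.1) (x + σ e w.1) else 1) *
      (if tgt e = ρ then b e (w.2 e) (q e w.1) (x + τ e w.1) else 1)), ?_, ?_, ?_⟩
  · intro w ρ x
    refine norm_prod_le_one' _ _ (fun e _ => ?_)
    rw [norm_mul]
    refine mul_le_one₀ ?_ (norm_nonneg _) ?_
    · split_ifs
      · exact ha _ _ _ _
      · simp
    · split_ifs
      · exact hb _ _ _ _
      · simp
  · have hcard : (0 : ℝ) < Fintype.card O := by exact_mod_cast Fintype.card_pos
    have h1 : ∑ w : O × (∀ e, Ω e), ‖((Fintype.card O : ℂ))⁻¹ * ∏ e, c e (w.2 e)‖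
        = ∏ e, ∑ w, ‖c e w‖ := by
      rw [Fintype.sum_prod_type]
      simp only [norm_mul, norm_inv, Complex.norm_natCast, norm_prod]
      rw [Finset.sum_const, Finset.card_univ, nsmul_eq_mul, ← Finset.mul_sum, ← mul_assoc,
        mul_inv_cancel₀ hcard.ne', one_mul, Finset.prod_univ_sum, Fintype.piFinset_univ]
    rw [h1]
    exact Finset.prod_le_prod (fun e _ => Finset.sum_nonneg (fun _ _ => norm_nonneg _)) (fun e _ => hc e)
  · intro r
    rw [hg r]
    rw [Fintype.sum_prod_type]
    rw [Finset.expect, ← NNRat.cast_smul_eq_nnqsmul ℂ]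
    simp only [Finset.card_univ]
    rw [smul_eq_mul, Finset.mul_sum]
    refine Finset.sum_congr rfl (fun o _ => ?_)
    have key : ∀ y : G, ∏ e, L e (q e o) (r (src e) + y + σ e o) (r (tgt e) + y + τ e o)
        = ∑ w : (∀ e, Ω e), (∏ e, c e (w e)) * ∏ ρ, ∏ e,
          ((if src e = ρ then a e (w e) (q e o) (r ρ + y + σ e o) else 1) *
            (if tgt e = ρ then b e (w e) (q e o) (r ρ + y + τ e o) else 1)) := by
      intro y
      calc ∏ e, L e (q e o) (r (src e) + y + σ e o) (r (tgt e) + y + τ e o)
          = ∏ e, ∑ w, c e w * a e w (q e o) (r (src e) + y + σ e o) *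
              b e w (q e o) (r (tgt e) + y + τ e o) := by
            refine Finset.prod_congr rfl (fun e _ => hLe e _ _ _)
        _ = ∑ w : (∀ e, Ω e), ∏ e, c e (w e) * a e (w e) (q e o) (r (src e) + y + σ e o) *
              b e (w e) (q e o) (r (tgt e) + y + τ e o) := by
            rw [Finset.prod_univ_sum, Fintype.piFinset_univ]
        _ = _ := by
            refine Finset.sum_congr rfl (fun w _ => ?_)
            simp only [mul_assoc]
            rw [Finset.prod_mul_distrib]
            congr 1
            rw [Finset.prod_comm]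
            refine Finset.prod_congr rfl (fun e _ => ?_)
            rw [Finset.prod_mul_distrib]
            congr 1
            · rw [Finset.prod_ite_eq]
              simp
            · rw [Finset.prod_ite_eq]
              simp
    simp only [key]
    rw [Finset.expect_sum_comm]
    rw [Finset.mul_sum]
    refine Finset.sum_congr rfl (fun w _ => ?_)
    rw [← Finset.mul_expect, mul_assoc]
    simp

end Pool.Agent.H16.SQ
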