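import Mathlib
import Pool.Agent.H45.SQ.Targets2
import Pool.Agent.H16.SQ.PLG

/-!
# Squares: module PTR, traces are planar
-/

namespace Pool.Agent.H16.SQ

open Finset
open scoped BigOperators ComplexConjugate
open Pool.Agent.H45.SQ

theorem add_self_zero {G : Type} [AddCommGroup G] [Module (ZMod 2) G] (x : G) : x + x = 0 := by
  have h : (2 : ZMod 2) • x = x + x := by
    rw [two_smul]
  rw [← h]
  have : (2 : ZMod 2) = 0 := by decide
  rw [this, zero_smul]

theorem ptr : T_PTR := by
  intro G _ _ _ _ ι _ _ i j L C _ hL
  have h := planar_general (E := Unit) (O := Unit) (ι := ι) (fun _ => L) (fun _ => C) (fun _ => hL)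
    (fun _ => i) (fun _ => j) (fun _ _ => 0) (fun _ _ => 0) (fun _ _ => 0)
    (fun r : ι → G => (mat L (r i + r j)).trace) (by
      intro r
      simp only [Finset.univ_unique, Finset.prod_singleton, add_zero, Finset.expect_singleton]
      unfold Matrix.trace
      simp only [Matrix.diag_apply, mat, add_self_zero]
      rw [← Finset.mul_sum, Finset.expect, ← NNRat.cast_smul_eq_nnqsmul ℂ]
      simp only [Finset.card_univ]
      rw [smul_eq_mul]
      congr 1
      · simp
      · rw [← Equiv.sum_comp (Equiv.addLeft (r i))]
        refine Finset.sum_congr rfl (fun y _ => ?_)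
        simp only [Equiv.coe_addLeft]
        congr 1
        have : r i + y + (r i + r j) = (r i + r i) + (r j + y) := by abel
        rw [this, add_self_zero, zero_add])
  simpa using h

end Pool.Agent.H16.SQ
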