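import Mathlib
import Pool.Agent.H45.SQ.Targets2
import Pool.Agent.H16.SQ.PLG
import Pool.Agent.H16.SQ.PTR

/-!
# Squares: module PCU, the cube statistic is planar
-/

namespace Pool.Agent.H16.SQ

open Finset
open scoped BigOperators ComplexConjugate
open Pool.Agent.H45.SQ

theorem pcu : T_PCU := by
  intro G _ _ _ _ A B C c hA hB hC
  have h := planar_general (E := Fin 3 × Fin 2 × Fin 2) (O := Fin 2 → Fin 2 → Fin 2 → G) (ι := Fin 3 × Fin 2)
    (fun e => (![A, B, C]) e.1) (fun _ => c)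
    (by rintro ⟨e, _⟩; fin_cases e <;> simp [hA, hB, hC])
    (fun e => (e.1, e.2.1)) (fun e => (e.1 + 1, e.2.2))
    (fun e o => (![o e.2.1 e.2.2 0 + o e.2.1 e.2.2 1, o 0 e.2.1 e.2.2 + o 1 e.2.1 e.2.2,
      o e.2.2 0 e.2.1 + o e.2.2 1 e.2.1]) e.1)
    (fun e o => (![o e.2.1 e.2.2 (e.2.1 + e.2.2), o (e.2.1 + e.2.2) e.2.1 e.2.2,
      o e.2.2 (e.2.2 + e.2.1) e.2.1]) e.1)
    (fun e o => (![o e.2.1 e.2.2 (e.2.1 + e.2.2), o (e.2.1 + e.2.2) e.2.1 e.2.2,
      o e.2.2 (e.2.2 + e.2.1) e.2.1]) e.1)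
    (Cub A B C) (by
      intro r
      rw [Finset.expect_comm]
      have hy : ∀ y : G, (𝔼 o : Fin 2 → Fin 2 → Fin 2 → G, ∏ e : Fin 3 × Fin 2 × Fin 2,
          (![A, B, C]) e.1 ((![o e.2.1 e.2.2 0 + o e.2.1 e.2.2 1, o 0 e.2.1 e.2.2 + o 1 e.2.1 e.2.2,
            o e.2.2 0 e.2.1 + o e.2.2 1 e.2.1]) e.1)
          (r (e.1, e.2.1) + y + (![o e.2.1 e.2.2 (e.2.1 + e.2.2), o (e.2.1 + e.2.2) e.2.1 e.2.2,
            o e.2.2 (e.2.2 + e.2.1) e.2.1]) e.1)
          (r (e.1 + 1, e.2.2) + y + (![o e.2.1 e.2.2 (e.2.1 + e.2.2), o (e.2.1 + e.2.2) e.2.1 e.2.2,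
            o e.2.2 (e.2.2 + e.2.1) e.2.1]) e.1)) = Cub A B C r := by
        intro y
        unfold Cub
        rw [← Fintype.expect_equiv (Equiv.addLeft (fun _ _ _ => y : Fin 2 → Fin 2 → Fin 2 → G)) _ _ (fun _ => rfl)]
        refine Finset.expect_congr rfl (fun o _ => ?_)
        rw [Fintype.prod_prod_type]
        simp only [Fintype.prod_prod_type, Fin.prod_univ_three, Matrix.cons_val_zero, Matrix.cons_val_one,
          Matrix.cons_val_two, Matrix.head_cons, Matrix.tail_cons, Equiv.coe_addLeft, Pi.add_apply]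
        have e1 : ∀ a b : G, y + a + (y + b) = a + b := by
          intro a b
          have : y + a + (y + b) = (y + y) + (a + b) := by abel
          rw [this, add_self_zero, zero_add]
        have e2 : ∀ a b : G, a + (y + b) = a + y + b := by
          intro a b; abel
        have e3 : ∀ a : G, a + y + y = a := by
          intro a
          rw [add_assoc, add_self_zero, add_zero]
        simp only [e1, e2, e3]
        rfl
      simp only [hy]
      rw [Fintype.expect_const])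
  have hp : ∏ _e : Fin 3 × Fin 2 × Fin 2, c = c ^ 12 := by
    simp [Finset.prod_const]
  rw [hp] at h
  exact h

end Pool.Agent.H16.SQ
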