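import Mathlib
import Pool.Agent.H45.SQ.Targets2
import Pool.Agent.H16.SQ.PLG
import Pool.Agent.H16.SQ.PTR

/-!
# Squares: module PTH, the trilinear form of separated families is planar
-/

namespace Pool.Agent.H16.SQ

open Finset
open scoped BigOperators ComplexConjugate
open Pool.Agent.H45.SQ

theorem pth : T_PTH := by
  intro G _ _ _ _ ι _ _ i j k A B C cA cB cC _ _ _ hA hB hC
  have h := planar_general (E := Fin 3) (O := G) (ι := ι) (![A, B, C]) (![cA, cB, cC])
    (by intro e; fin_cases e <;> simp [hA, hB, hC])
    (![i, j, k]) (![j, k, i]) (fun _ o => o) (fun _ _ => 0) (fun _ _ => 0)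
    (fun r : ι → G => Th (r i + r j) (r j + r k) (mat A (r i + r j))
      (mat B (r j + r k)) (mat C (r i + r k))) (by
      intro r
      have hN : (Fintype.card G : ℂ) ≠ 0 := by
        exact_mod_cast Fintype.card_ne_zero
      simp only [Fin.prod_univ_three, Matrix.cons_val_zero, Matrix.cons_val_one, Matrix.cons_val_two,
        Matrix.head_cons, Matrix.tail_cons, add_zero]
      unfold Th mat
      simp only [Finset.expect, ← NNRat.cast_smul_eq_nnqsmul ℂ, Finset.card_univ, smul_eq_mul]
      rw [← Equiv.sum_comp (Equiv.addLeft (r i))]
      simp only [Equiv.coe_addLeft]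
      have hin : ∀ y : G, ∑ y' : G, ((Fintype.card G : ℂ))⁻¹ * A (r i + y + y') (r i + y) (r i + y + (r i + r j)) *
          (((Fintype.card G : ℂ))⁻¹ * B (r i + y + (r i + r j) + (y' + (r i + r j))) (r i + y + (r i + r j))
            (r i + y + (r i + r j) + (r j + r k))) *
          (((Fintype.card G : ℂ))⁻¹ * C (r i + y + (r i + r j) + (r j + r k) + (y' + (r i + r j) + (r j + r k)))
            (r i + y + (r i + r j) + (r j + r k)) (r i + y + (r i + r j) + (r j + r k) + (r i + r k))) =
          (((Fintype.card G : ℂ))⁻¹) ^ 3 * ∑ o : G, A o (r i + y) (r j + y) * B o (r j + y) (r k + y) *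
            C o (r k + y) (r i + y) := by
        intro y
        rw [← Equiv.sum_comp (Equiv.addLeft (r i + y)), Finset.mul_sum]
        refine Finset.sum_congr rfl (fun o _ => ?_)
        simp only [Equiv.coe_addLeft]
        have e1 : r i + y + (r i + y + o) = o := by
          have : r i + y + (r i + y + o) = (r i + y) + (r i + y) + o := by abel
          rw [this, add_self_zero, zero_add]
        have e2 : r i + y + (r i + r j) = r j + y := by
          have : r i + y + (r i + r j) = (r i + r i) + (r j + y) := by abel
          rw [this, add_self_zero, zero_add]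
        have e3 : r j + y + (r j + r k) = r k + y := by
          have : r j + y + (r j + r k) = (r j + r j) + (r k + y) := by abel
          rw [this, add_self_zero, zero_add]
        have e4 : r k + y + (r i + r k) = r i + y := by
          have : r k + y + (r i + r k) = (r k + r k) + (r i + y) := by abel
          rw [this, add_self_zero, zero_add]
        have e5 : r j + y + (r i + y + o + (r i + r j)) = o := by
          have : r j + y + (r i + y + o + (r i + r j)) = (r j + r j) + (y + y) + (r i + r i) + o := by abel
          rw [this]; simp only [add_self_zero, add_zero, zero_add]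
        have e6 : r k + y + (r i + y + o + (r i + r j) + (r j + r k)) = o := by
          have : r k + y + (r i + y + o + (r i + r j) + (r j + r k)) =
            (r j + r j) + (y + y) + (r i + r i) + (r k + r k) + o := by abel
          rw [this]; simp only [add_self_zero, add_zero, zero_add]
        rw [e1, e2, e3, e4, e5, e6]
        ring
      simp only [hin]
      rw [← Finset.mul_sum, ← Finset.mul_sum, ← mul_assoc, ← mul_assoc, Finset.sum_comm]
      congr 1
      have hc : ((((Fintype.card G : ℚ≥0))⁻¹ : ℚ≥0) : ℂ) = ((Fintype.card G : ℂ))⁻¹ := by simp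
      rw [hc]
      field_simp)
  have hp : ∏ e : Fin 3, (![cA, cB, cC]) e = cA * cB * cC := by
    simp [Fin.prod_univ_three]
  rw [hp] at h
  exact h

end Pool.Agent.H16.SQ
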